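import Pool.Agent.W795.TQ.DStm

/-!
The two-point inequality for strong solutions of the Navier-Stokes equations with Dirichlet
boundary conditions (subtask TQD-TP of helper795's project TQ).
-/

set_option linter.unusedSectionVars false
set_option maxHeartbeats 4000000

open MeasureTheory Set Filter Topology
open scoped InnerProductSpace

namespace Pool.Agent.W775.TQ

open H772R2.NSR (Frame prim_cont)
open H772R2.NSG (St)
open Pool.Agent.W795.TQ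

variable {H K : Type} [NormedAddCommGroup H] [InnerProductSpace ℝ H] [CompleteSpace H]
  [NormedAddCommGroup K] [InnerProductSpace ℝ K] [CompleteSpace K]
variable {W : Submodule ℝ (H × K)} {m : H → K} {C c ν T : ℝ} {F : ℝ → K} {u u1 : ℝ → H}
  {z z1 : ℝ → K}

theorem toSt (S : Str W m ν T F u u1 z z1) (hF : ContinuousOn F (Icc 0 T)) :
    ∃ Z, St W m T (fun _ => ν) F (u 0) u z u1 z1 Z := by
  have hz : ContinuousOn z (Icc 0 T) := prim_cont S.z1m S.pz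
  obtain ⟨Z, hZ⟩ := (isCompact_Icc (a := (0 : ℝ)) (b := T)).exists_bound_of_continuousOn hz
  refine ⟨Z, rfl, S.mem, S.u1m, S.z1m, S.pu, S.pz, S.mem1, continuousOn_const, hF, S.weak, ?_, hZ⟩
  intro t ht
  rw [intervalIntegral.integral_const_mul]
  exact S.energy t ht

/-- Young's inequalities. -/
theorem young1 {X Q c : ℝ} (_hX : 0 ≤ X) (_hQ : 0 ≤ Q) :
    c * (Q * X ^ 3) ≤ X ^ 4 / 16 + 432 * (c * Q) ^ 4 := by
  set B := c * Q with hB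
  have e : c * (Q * X ^ 3) = B * X ^ 3 := by rw [hB]; ring
  rw [e]
  nlinarith [sq_nonneg (X ^ 2 - 12 * B * X), sq_nonneg (X * B - 12 * B ^ 2),
    sq_nonneg (X ^ 2 - 144 * B ^ 2), sq_nonneg (X ^ 2 - 6 * B * X - 72 * B ^ 2),
    sq_nonneg (X - 12 * B), mul_nonneg (sq_nonneg X) (sq_nonneg (X - 12 * B)),
    mul_nonneg (sq_nonneg B) (sq_nonneg (X - 12 * B)), sq_nonneg (X * (X - 12 * B))]

theorem young2 {X P Q c : ℝ} :
    c * (P * (Q * X)) ≤ X ^ 4 / 16 + P ^ 2 + (c * Q) ^ 4 := by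
  nlinarith [sq_nonneg (P - c * Q * X / 2), sq_nonneg (X ^ 2 / 4 - (c * Q) ^ 2 / 2),
    sq_nonneg ((c * Q) ^ 2)]

theorem pw (Fr : Frame W m C) (Un : Univ W m c) (hν : 0 < ν) {p q : H × K} (hp : p ∈ W)
    (hq : q ∈ W) {f : K} {Φ : ℝ} (hf : ‖f‖ ≤ Φ) (U : H) :
    ⟪f, p.2 - q.2⟫_ℝ + ν * ⟪p.2, q.2⟫_ℝ - ⟪m p.1, q.2⟫_ℝ
      ≤ 5 / 8 * ν * ‖p.2‖ ^ 2 + (19 / 8 * ν * ‖q.2‖ ^ 2 + 866 * c ^ 4 / ν ^ 3 * ‖q.2‖ ^ 4
        * (‖p.1 - U‖ ^ 2 + ‖q.1 - U‖ ^ 2) + 4 * Φ ^ 2 / ν) := by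
  have hc := Un.c0
  have he : p - q ∈ W := W.sub_mem hp hq
  have h1 := Un.quart _ he
  have h2 := Un.tri _ hq _ he
  have h3 := Fr.anti _ hp _ he
  simp only [Prod.fst_sub, Prod.snd_sub, sub_sub_cancel] at h1 h2 h3
  set w := ‖p.2 - q.2‖ with hw
  set e := ‖p.1 - q.1‖ with hee
  have hw0 : 0 ≤ w := norm_nonneg _
  have he0 : 0 ≤ e := norm_nonneg _
  set X := Real.sqrt w with hX
  set E := Real.sqrt e with hE
  have hX0 : 0 ≤ X := Real.sqrt_nonneg _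
  have hE0 : 0 ≤ E := Real.sqrt_nonneg _
  have hX2 : X ^ 2 = w := Real.sq_sqrt hw0
  have hE2 : E ^ 2 = e := Real.sq_sqrt he0
  set r := Real.sqrt (Real.sqrt ν) with hr
  have hr0 : 0 < r := Real.sqrt_pos.2 (Real.sqrt_pos.2 hν)
  have hr4 : r ^ 4 = ν := by
    have : r ^ 4 = (r ^ 2) ^ 2 := by ring
    rw [this, hr, Real.sq_sqrt (Real.sqrt_nonneg _), Real.sq_sqrt hν.le]
  set g := ‖q.2‖ with hg
  have hg0 : 0 ≤ g := norm_nonneg _
  -- the trilinear term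
  have h4 : -⟪m p.1, q.2⟫_ℝ ≤ c * (E * X ^ 3) * g + c * (g ^ 2 * (E * X)) := by
    have e1 : ⟪m p.1, q.2⟫_ℝ = ⟪m (p.1 - q.1), q.2⟫_ℝ - ⟪m q.1, p.2 - q.2⟫_ℝ := by
      rw [inner_sub_left] at h3
      linarith
    rw [e1]
    have h5 := abs_real_inner_le_norm (m (p.1 - q.1)) q.2
    have h6 : ‖m (p.1 - q.1)‖ * ‖q.2‖ ≤ c * (E * X ^ 3) * g := by
      gcongr
    have h7 := (abs_le.1 (h5.trans h6)).1
    have h8 := (abs_le.1 h2).2
    linarith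
  have h5 : c * (E * X ^ 3) * g ≤ ν * w ^ 2 / 16 + 432 * (c ^ 4 / ν ^ 3 * g ^ 4 * e ^ 2) := by
    have k := young1 (X := r * X) (Q := E * g / r ^ 3) (c := c) (by positivity) (by positivity)
    have e1 : c * (E * g / r ^ 3 * (r * X) ^ 3) = c * (E * X ^ 3) * g := by
      field_simp
    have e2 : (r * X) ^ 4 = ν * w ^ 2 := by rw [← hr4, ← hX2]; ring
    have e3 : (c * (E * g / r ^ 3)) ^ 4 = c ^ 4 / ν ^ 3 * g ^ 4 * e ^ 2 := by
      rw [← hr4, ← hE2]; field_simp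
    rw [e1, e2, e3] at k
    exact k
  have h6 : c * (g ^ 2 * (E * X)) ≤ ν * w ^ 2 / 16 + ν * g ^ 2 + c ^ 4 / ν ^ 3 * g ^ 4 * e ^ 2 := by
    have k := young2 (X := r * X) (Q := E * g / r ^ 3) (P := r ^ 2 * g) (c := c)
    have e1 : c * (r ^ 2 * g * (E * g / r ^ 3 * (r * X))) = c * (g ^ 2 * (E * X)) := by
      field_simp
    have e2 : (r * X) ^ 4 = ν * w ^ 2 := by rw [← hr4, ← hX2]; ring
    have e3 : (c * (E * g / r ^ 3)) ^ 4 = c ^ 4 / ν ^ 3 * g ^ 4 * e ^ 2 := by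
      rw [← hr4, ← hE2]; field_simp
    have e4 : (r ^ 2 * g) ^ 2 = ν * g ^ 2 := by rw [← hr4]; ring
    rw [e1, e2, e3, e4] at k
    exact k
  -- the force
  have hΦ : 0 ≤ Φ := (norm_nonneg _).trans hf
  have h7 : ⟪f, p.2 - q.2⟫_ℝ ≤ ν * w ^ 2 / 16 + 4 * Φ ^ 2 / ν := by
    have k1 : ⟪f, p.2 - q.2⟫_ℝ ≤ Φ * w := (real_inner_le_norm _ _).trans (by gcongr)
    have k2 : ν * w ^ 2 / 16 + 4 * Φ ^ 2 / ν - Φ * w = (ν * w / 4 - 2 * Φ) ^ 2 / ν := by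
      field_simp
      ring
    have k3 : 0 ≤ (ν * w / 4 - 2 * Φ) ^ 2 / ν := by positivity
    linarith
  -- the viscous term
  have h8 : ν * ⟪p.2, q.2⟫_ℝ ≤ ν * (‖p.2‖ ^ 2 / 4 + g ^ 2) := by
    refine mul_le_mul_of_nonneg_left ?_ hν.le
    have k1 : ⟪p.2, q.2⟫_ℝ ≤ ‖p.2‖ * g := real_inner_le_norm _ _
    nlinarith [sq_nonneg (‖p.2‖ / 2 - g)]
  have h9 : w ^ 2 ≤ 2 * ‖p.2‖ ^ 2 + 2 * g ^ 2 := by
    have k1 : w ≤ ‖p.2‖ + g := norm_sub_le _ _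
    nlinarith [sq_nonneg (‖p.2‖ - g), norm_nonneg p.2]
  have h10 : e ^ 2 ≤ 2 * (‖p.1 - U‖ ^ 2 + ‖q.1 - U‖ ^ 2) := by
    have k1 : e ≤ ‖p.1 - U‖ + ‖q.1 - U‖ := by
      have : p.1 - q.1 = (p.1 - U) - (q.1 - U) := by abel
      rw [hee, this]
      exact norm_sub_le _ _
    nlinarith [sq_nonneg (‖p.1 - U‖ - ‖q.1 - U‖), norm_nonneg (p.1 - U), norm_nonneg (q.1 - U)]
  have h11 : c ^ 4 / ν ^ 3 * g ^ 4 * e ^ 2
      ≤ c ^ 4 / ν ^ 3 * g ^ 4 * (2 * (‖p.1 - U‖ ^ 2 + ‖q.1 - U‖ ^ 2)) :=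
    mul_le_mul_of_nonneg_left h10 (by positivity)
  have h12 : ν * w ^ 2 ≤ ν * (2 * ‖p.2‖ ^ 2 + 2 * g ^ 2) :=
    mul_le_mul_of_nonneg_left h9 hν.le
  have e5 : 866 * c ^ 4 / ν ^ 3 * g ^ 4 * (‖p.1 - U‖ ^ 2 + ‖q.1 - U‖ ^ 2)
      = 433 * (c ^ 4 / ν ^ 3 * g ^ 4 * (2 * (‖p.1 - U‖ ^ 2 + ‖q.1 - U‖ ^ 2))) := by ring
  rw [e5]
  linarith

theorem proof_dtp : S_dtp := by
  intro c hc
  refine ⟨11 + 2310 * c ^ 4, by positivity, ?_⟩
  intro H K _ _ _ _ _ _ W m C ν T F u u1 z z1 Φ U Fr Un hν hT hF S hΦ hFΦ t1 ht1 a ha b hb hab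
  obtain ⟨Z, St⟩ := toSt S hF
  have uc : ContinuousOn u (Icc 0 T) := St.uc
  have zc : ContinuousOn z (Icc 0 T) := St.zc
  have mc : ContinuousOn (fun s => m (u s)) (Icc 0 T) := St.mc Fr
  have hsub : Icc a b ⊆ Icc 0 T := Icc_subset_Icc ha.1 hb.2
  set v := u t1 with hv
  set ζ := z t1 with hζ
  set g := ‖ζ‖ with hg
  have hg0 : 0 ≤ g := norm_nonneg _
  have ii : ∀ {f : ℝ → ℝ}, ContinuousOn f (Icc 0 T) → ∀ x ∈ Icc 0 T, ∀ y ∈ Icc 0 T,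
      IntervalIntegrable f volume x y := by
    intro f hf x hx y hy
    exact (hf.mono (uIcc_subset_Icc hx hy)).intervalIntegrable
  have h0 : (0 : ℝ) ∈ Icc 0 T := ⟨le_rfl, hT.le⟩
  -- energy
  have cz2 : ContinuousOn (fun s => ‖z s‖ ^ 2) (Icc 0 T) := zc.norm.pow 2
  have cFz : ContinuousOn (fun s => ⟪F s, z s⟫_ℝ) (Icc 0 T) := hF.inner zc
  have cw : ContinuousOn (fun s => ⟪F s - ν • z s + m (u s), ζ⟫_ℝ) (Icc 0 T) :=
    ((hF.sub (zc.const_smul ν)).add mc).inner continuousOn_const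
  have E1 : ν * (∫ s in a..b, ‖z s‖ ^ 2) = (‖u a‖ ^ 2 - ‖u b‖ ^ 2) / 2
      + ∫ s in a..b, ⟪F s, z s⟫_ℝ := by
    have k1 := S.energy a ha
    have k2 := S.energy b hb
    have k3 := intervalIntegral.integral_add_adjacent_intervals (ii cz2 0 h0 a ha)
      (ii cz2 a ha b hb)
    have k4 := intervalIntegral.integral_add_adjacent_intervals (ii cFz 0 h0 a ha)
      (ii cFz a ha b hb)
    rw [← k3, ← k4] at k2
    linarith
  have E2 : ⟪u b - u a, v⟫_ℝ = ∫ s in a..b, ⟪F s - ν • z s + m (u s), ζ⟫_ℝ := by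
    have k1 := S.weak _ (S.mem t1 ht1) a ha
    have k2 := S.weak _ (S.mem t1 ht1) b hb
    have k3 := intervalIntegral.integral_add_adjacent_intervals (ii cw 0 h0 a ha)
      (ii cw a ha b hb)
    simp only at k1 k2
    rw [← k3] at k2
    have e : u b - u a = (u b - u 0) - (u a - u 0) := by abel
    rw [e, inner_sub_left, k2, k1]
    ring
  have cG : ContinuousOn (fun s => ⟪F s, z s - ζ⟫_ℝ + ν * ⟪z s, ζ⟫_ℝ - ⟪m (u s), ζ⟫_ℝ)
      (Icc 0 T) :=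
    ((hF.inner (zc.sub continuousOn_const)).add
      (continuousOn_const.mul (zc.inner continuousOn_const))).sub (mc.inner continuousOn_const)
  set D : ℝ → ℝ := fun s => ‖u s - U‖ with hD
  have hD0 : ∀ s, 0 ≤ D s := fun s => norm_nonneg _
  have cD : ContinuousOn D (Icc 0 T) := (uc.sub continuousOn_const).norm
  set r : ℝ := ν ^ (1 / 4 : ℝ) with hr
  have hr0 : 0 < r := Real.rpow_pos_of_pos hν _
  let R : ℝ → ℝ := fun s => 19 / 8 * ν * g ^ 2 + 866 * c ^ 4 / ν ^ 3 * g ^ 4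
        * (D s ^ 2 + D t1 ^ 2) + 4 * Φ ^ 2 / ν
  have cR : ContinuousOn R (Icc 0 T) := by
    refine (continuousOn_const.add (continuousOn_const.mul (ContinuousOn.add ?_
      continuousOn_const))).add continuousOn_const
    exact cD.pow 2
  have E3 : ν * (∫ s in a..b, ‖z s‖ ^ 2) = ((‖u a‖ ^ 2 - ‖u b‖ ^ 2) / 2 + ⟪u b - u a, v⟫_ℝ)
      + ∫ s in a..b, (⟪F s, z s - ζ⟫_ℝ + ν * ⟪z s, ζ⟫_ℝ - ⟪m (u s), ζ⟫_ℝ) := by
    have k : ∫ s in a..b, ⟪F s, z s⟫_ℝ = (∫ s in a..b, ⟪F s - ν • z s + m (u s), ζ⟫_ℝ)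
        + ∫ s in a..b, (⟪F s, z s - ζ⟫_ℝ + ν * ⟪z s, ζ⟫_ℝ - ⟪m (u s), ζ⟫_ℝ) := by
      rw [← intervalIntegral.integral_add (ii cw a ha b hb) (ii cG a ha b hb)]
      refine intervalIntegral.integral_congr fun s _ => ?_
      simp only [inner_add_left, inner_sub_left, inner_sub_right, inner_smul_left]
      simp
    rw [E1, E2, k]
    ring
  -- the bracket
  have E4 : (‖u a‖ ^ 2 - ‖u b‖ ^ 2) / 2 + ⟪u b - u a, v⟫_ℝ
      ≤ (D a + D b) * (D a + D b + D t1) := by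
    have k1 : (‖u a‖ ^ 2 - ‖u b‖ ^ 2) / 2 + ⟪u b - u a, v⟫_ℝ
        = ⟪u a - u b, (2 : ℝ)⁻¹ • ((u a - U) + (u b - U)) - (v - U)⟫_ℝ := by
      simp only [inner_add_right, inner_sub_right, inner_sub_left, inner_smul_right,
        ← real_inner_self_eq_norm_sq]
      rw [real_inner_comm (u a) (u b)]
      ring
    rw [k1]
    have k2 : ‖u a - u b‖ ≤ D a + D b := by
      have : u a - u b = (u a - U) - (u b - U) := by abel
      rw [this]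
      exact norm_sub_le _ _
    have k3 : ‖(2 : ℝ)⁻¹ • ((u a - U) + (u b - U)) - (v - U)‖ ≤ D a + D b + D t1 := by
      refine (norm_sub_le _ _).trans ?_
      rw [norm_smul, Real.norm_eq_abs, abs_of_pos (by norm_num : (0 : ℝ) < 2⁻¹)]
      have k4 := norm_add_le (u a - U) (u b - U)
      have k5 : ‖u a - U‖ = D a := rfl
      have k6 : ‖u b - U‖ = D b := rfl
      have k7 : ‖v - U‖ = D t1 := rfl
      have k8 := norm_nonneg ((u a - U) + (u b - U))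
      have k9 := norm_nonneg (u a - U)
      have k10 := norm_nonneg (u b - U)
      rw [k5, k6] at k4
      rw [k5] at k9
      rw [k6] at k10
      rw [k7]
      linarith
    refine (real_inner_le_norm _ _).trans ?_
    have := hD0 a
    have := hD0 b
    gcongr
  -- the pointwise bound
  have E5 : ∫ s in a..b, (⟪F s, z s - ζ⟫_ℝ + ν * ⟪z s, ζ⟫_ℝ - ⟪m (u s), ζ⟫_ℝ)
      ≤ ∫ s in a..b, (5 / 8 * ν * ‖z s‖ ^ 2 + R s) := by
    refine intervalIntegral.integral_mono_on hab (ii cG a ha b hb)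
      (ii ((cz2.const_mul _).add cR) a ha b hb) fun s hs => ?_
    exact pw Fr Un hν (S.mem s (hsub hs)) (S.mem t1 ht1) (hFΦ s (hsub hs)) U
  rw [intervalIntegral.integral_add (ii (cz2.const_mul _) a ha b hb) (ii cR a ha b hb),
    intervalIntegral.integral_const_mul] at E5
  set I := ∫ s in a..b, ‖z s‖ ^ 2 with hI
  have E6 : ν * I ≤ 8 / 3 * ((D a + D b) * (D a + D b + D t1) + ∫ s in a..b, R s) := by
    linarith
  -- powers of the viscosity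
  have hr3 : ν ^ (3 / 2 : ℝ) = r ^ 6 := by
    rw [hr, ← Real.rpow_natCast, ← Real.rpow_mul hν.le]; norm_num
  have hr5 : ν ^ (5 / 4 : ℝ) = r ^ 5 := by
    rw [hr, ← Real.rpow_natCast, ← Real.rpow_mul hν.le]; norm_num
  have hr7 : ν ^ (7 / 2 : ℝ) = r ^ 14 := by
    rw [hr, ← Real.rpow_natCast, ← Real.rpow_mul hν.le]; norm_num
  have hr4 : ν = r ^ 4 := by
    rw [hr, ← Real.rpow_natCast, ← Real.rpow_mul hν.le]; norm_num
  rw [hr3, hr5, hr7]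
  have cJ : ContinuousOn (fun s => g ^ 2 / r ^ 6 + Φ ^ 2 / r ^ 14
      + ((g ^ 2 / r ^ 6) ^ 2 + Φ ^ 2 / r ^ 14) * ((D s / r ^ 5) ^ 2 + (D t1 / r ^ 5) ^ 2))
      (Icc 0 T) := by
    refine continuousOn_const.add (continuousOn_const.mul (ContinuousOn.add ?_
      continuousOn_const))
    exact (cD.div_const _).pow 2
  have E7 : 8 / 3 * (∫ s in a..b, R s) / r ^ 10 ≤ (11 + 2310 * c ^ 4) *
      ∫ s in a..b, (g ^ 2 / r ^ 6 + Φ ^ 2 / r ^ 14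
      + ((g ^ 2 / r ^ 6) ^ 2 + Φ ^ 2 / r ^ 14) * ((D s / r ^ 5) ^ 2 + (D t1 / r ^ 5) ^ 2)) := by
    have e1 : 8 / 3 * (∫ s in a..b, R s) / r ^ 10 = ∫ s in a..b, (8 / 3 / r ^ 10) * R s := by
      rw [intervalIntegral.integral_const_mul]; ring
    rw [e1, ← intervalIntegral.integral_const_mul]
    refine intervalIntegral.integral_mono_on hab (ii (cR.const_mul _) a ha b hb)
      (ii (cJ.const_mul _) a ha b hb) fun s _ => ?_
    have e2 : (8 / 3 / r ^ 10) * R s = 19 / 3 * (g ^ 2 / r ^ 6) + 32 / 3 * (Φ ^ 2 / r ^ 14)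
        + 6928 / 3 * c ^ 4 * ((g ^ 2 / r ^ 6) ^ 2 * ((D s / r ^ 5) ^ 2 + (D t1 / r ^ 5) ^ 2)) := by
      simp only [R]
      rw [hr4]
      field_simp
      ring
    rw [e2]
    set Y := g ^ 2 / r ^ 6 with hY
    set P := Φ ^ 2 / r ^ 14 with hP
    set M := (D s / r ^ 5) ^ 2 + (D t1 / r ^ 5) ^ 2 with hM
    have hY0 : 0 ≤ Y := by positivity
    have hP0 : 0 ≤ P := by positivity
    have hM0 : 0 ≤ M := by positivity
    have m1 : 0 ≤ c ^ 4 * Y := by positivity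
    have m2 : 0 ≤ c ^ 4 * P := by positivity
    have m3 : 0 ≤ Y ^ 2 * M := by positivity
    have m4 : 0 ≤ P * M := by positivity
    have m5 : 0 ≤ c ^ 4 * (Y ^ 2 * M) := by positivity
    have m6 : 0 ≤ c ^ 4 * (P * M) := by positivity
    have e3 : (11 + 2310 * c ^ 4) * (Y + P + (Y ^ 2 + P) * M) = 11 * Y + 11 * P
        + 11 * (Y ^ 2 * M) + 11 * (P * M) + 2310 * (c ^ 4 * Y) + 2310 * (c ^ 4 * P)
        + 2310 * (c ^ 4 * (Y ^ 2 * M)) + 2310 * (c ^ 4 * (P * M)) := by ring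
    rw [e3]
    linarith
  have E8 : ∫ s in a..b, ‖z s‖ ^ 2 / r ^ 6 = ν * I / r ^ 10 := by
    rw [intervalIntegral.integral_div, ← hI, hr4]
    field_simp
  rw [E8]
  have E9 : ν * I / r ^ 10 ≤ 8 / 3 * ((D a / r ^ 5 + D b / r ^ 5)
      * (D a / r ^ 5 + D b / r ^ 5 + D t1 / r ^ 5)) + 8 / 3 * (∫ s in a..b, R s) / r ^ 10 := by
    have e1 : 8 / 3 * ((D a / r ^ 5 + D b / r ^ 5)
      * (D a / r ^ 5 + D b / r ^ 5 + D t1 / r ^ 5)) + 8 / 3 * (∫ s in a..b, R s) / r ^ 10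
      = 8 / 3 * ((D a + D b) * (D a + D b + D t1) + ∫ s in a..b, R s) / r ^ 10 := by
      field_simp
    rw [e1]
    gcongr
  have hB0 : 0 ≤ (D a / r ^ 5 + D b / r ^ 5) * (D a / r ^ 5 + D b / r ^ 5 + D t1 / r ^ 5) := by
    have := hD0 a
    have := hD0 b
    have := hD0 t1
    positivity
  have hB1 : 0 ≤ c ^ 4 * ((D a / r ^ 5 + D b / r ^ 5)
      * (D a / r ^ 5 + D b / r ^ 5 + D t1 / r ^ 5)) := by positivity
  show ν * I / r ^ 10 ≤ (11 + 2310 * c ^ 4) *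
      (∫ s in a..b, (g ^ 2 / r ^ 6 + Φ ^ 2 / r ^ 14
      + ((g ^ 2 / r ^ 6) ^ 2 + Φ ^ 2 / r ^ 14) * ((D s / r ^ 5) ^ 2 + (D t1 / r ^ 5) ^ 2)))
      + (11 + 2310 * c ^ 4) * ((D a / r ^ 5 + D b / r ^ 5)
      * (D a / r ^ 5 + D b / r ^ 5 + D t1 / r ^ 5))
  nlinarith

end Pool.Agent.W775.TQ
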